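import Pool.Agent.H83.G.Targets2

/-!
MP_ee74d2_an, Frostman data: the class `EnX` (square functions in boxes of full duration) and the
targets of its class layer. Proofs: `/team-store/H83_FD_B.md`.
-/

set_option autoImplicit false

namespace Pool.Agent.H83.FD

open Pool.Agent.H83.G MeasureTheory Set
open scoped ENNReal NNReal RealInnerProductSpace

section

variable {m : ℕ}

/-- the box `r × (R s)^m × R` in the frame `η` -/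
def VX (η : E m) (s r R : ℝ) (z₀ : Z m) : Set (Z m) :=
  {z | |(Lo η s (z - z₀)).1| ≤ r ∧ ‖(Lo η s (z - z₀)).2‖ ≤ R * s ^ 2}

/-- the coordinates of the box -/
noncomputable def St (η : E m) (s r R : ℝ) (z : Z m) : Z m :=
  (r⁻¹ * (Lo η s z).1, (R * s ^ 2)⁻¹ • (Lo η s z).2)

/-- the class: square functions of the caps of radius `R^{-1/2}` in the cap `(η, s)` -/
def EnX (L : ℕ) (α R A : ℝ) (G : Z m → ℂ) : Prop :=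
  ∀ (I : Finset (E m)) (φ : E m → E m → ℂ) (η : E m) (s r : ℝ) (z₀ : Z m),
    (∀ x ∈ I, φ x ∈ Bp m L) →
    (∀ x ∈ I, ∀ y ∈ I, x ≠ y → sR R ≤ ((m : ℝ) + 1) * ‖x - y‖) →
    (∀ x ∈ I, ‖x - η‖ ≤ s) → sR R ≤ s → s ≤ 1 → R * s ^ 2 ≤ r → r ≤ R * s →
    ∑ x ∈ I, ∫⁻ z in VX η s r R z₀, ‖TP (φ x) x (sR R) G z‖ₑ ^ 2 ≤
      ENNReal.ofReal (A ^ 2 * (R * (R * s) ^ m * min (R ^ (α - m)) (r ^ (α - m))))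

end

/-- AVX: from sharp boxes to weights -/
def T_AVX : Prop := ∀ (m N : ℕ), m + 3 ≤ N → ∃ C : ℝ≥0, ∀ (F : Z m → ℝ≥0∞) (η : E m)
  (s r R c : ℝ) (x : Z m) (S : ℝ≥0∞), Measurable F → 0 < s → 0 < r → 0 < R → 0 < c → c ≤ 1 →
  (∀ z₁, ∫⁻ z in VX η s r R z₁, F z ≤ S) →
  ∫⁻ z, F z * ENNReal.ofReal (wt N (c • St η s r R z - x)) ≤
    C * ENNReal.ofReal ((c⁻¹) ^ (m + 2)) * S

/-- LVX: a box is covered by planks of the same duration -/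
def T_LVX : Prop := ∀ (m N : ℕ), ∃ C : ℝ≥0, ∀ (η : E m) (s r R : ℝ) (z₀ : Z m), 0 < s → 0 < R →
  R * s ^ 2 ≤ r → ∃ J : Finset (Z m),
  (∀ z ∈ VX η s r R z₀, ∃ x ∈ J, ‖(R * s ^ 2)⁻¹ • Lo η s z - x‖ ≤ 1) ∧
  ∀ z, ∑ x ∈ J, ENNReal.ofReal (wt (N + 2) ((R * s ^ 2)⁻¹ • Lo η s z - x)) ≤
    C * ENNReal.ofReal (wt N (St η s r R (z - z₀)))

/-- LOK: one cap of the child in a box of the child, bounded by the pieces of the parent -/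
def T_LOK : Prop := ∀ (m N L : ℕ) (β : E m → ℂ) (D : ℝ), IsPU β → 1 ≤ D → m + 3 ≤ N →
  N + m + 5 ≤ L → ∃ C : ℝ≥0, ∀ (R R₁ s r : ℝ) (G : Z m → ℂ) (G' : (Fin m → ℤ) → Z m → ℂ)
  (I : Finset (Fin m → ℤ)) (φ : E m → ℂ) (x η : E m) (z₀ : Z m), 1 ≤ R₁ → R₁ ≤ R → TC G →
  (∀ ζ, G ζ ≠ 0 → ζ ∈ Rg m (1 / 2) R⁻¹) → Sub β D R G G' I → φ ∈ Bp m L → ‖x - η‖ ≤ s →
  sR R₁ ≤ s → s ≤ 1 → R₁ * s ^ 2 ≤ r →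
  ∫⁻ z in VX η s r R₁ z₀, ‖TP φ x (sR R₁) (fun ζ => ∑ k ∈ I, G' k ζ) z‖ₑ ^ 2 ≤
    C * ENNReal.ofReal ((max 1 (Real.sqrt R / (R₁ * s))) ^ m) *
      ∑ k ∈ I.filter (fun k => ‖ctr (sR R) k - x‖ ≤ 2 * D * sR R₁),
        ∫⁻ z, ‖TP β (ctr (sR R) k) (sR R) G z‖ₑ ^ 2 *
          ENNReal.ofReal (wt N (St η s r R₁ (z - z₀)))

/-- CNK: local constancy of a piece on its planks -/
def T_CNK : Prop := ∀ (m M : ℕ) (β : E m → ℂ), IsPU β → ∃ C : ℝ≥0, ∀ (R : ℝ) (G : Z m → ℂ)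
  (c : E m), 1 ≤ R → TC G → (∀ ζ, G ζ ≠ 0 → ζ ∈ Rg m (1 / 2) R⁻¹) → ∀ z,
  ‖TP β c (sR R) G z‖ₑ ^ 2 ≤ C * ENNReal.ofReal (sR R ^ (m + 2)) *
    ∫⁻ z', ‖TP β c (sR R) G z'‖ₑ ^ 2 * ENNReal.ofReal (wt M (Lo c (sR R) (z - z')))

/-- INX: geometry of the boxes of child and parent -/
def T_INX : Prop := ∀ (m N : ℕ) (D : ℝ), 1 ≤ D → ∃ C : ℝ≥0, ∀ (R R₁ s s' r : ℝ)
  (η η' c : E m) (z₀ z' : Z m), 1 ≤ R₁ → R₁ ≤ R → sR R₁ ≤ s → s ≤ 1 → R₁ * s ^ 2 ≤ r →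
  s' = max (sR R) (s * R₁ / R) → ‖η' - η‖ ≤ D * s → ‖c - η'‖ ≤ D * s' →
  ∫⁻ z, ENNReal.ofReal (wt (N + m + 3) (St η s r R₁ (z - z₀)) *
      wt (N + m + 3) (Lo c (sR R) (z - z'))) ≤
    C * ENNReal.ofReal ((min (R₁ * s) (Real.sqrt R)) ^ m * R₁) *
      ENNReal.ofReal (wt N (St η' s' r R (z' - z₀)))

/-- CST: from a box of the child to a box of the parent -/
def T_CST : Prop := ∀ (m N : ℕ) (β : E m → ℂ) (D : ℝ), IsPU β → 1 ≤ D → ∃ C : ℝ≥0,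
  ∀ (R R₁ s s' r : ℝ) (G : Z m → ℂ) (k : Fin m → ℤ) (η η' : E m) (z₀ : Z m), 1 ≤ R₁ → R₁ ≤ R →
  TC G → (∀ ζ, G ζ ≠ 0 → ζ ∈ Rg m (1 / 2) R⁻¹) → sR R₁ ≤ s → s ≤ 1 → R₁ * s ^ 2 ≤ r →
  s' = max (sR R) (s * R₁ / R) → ‖η' - η‖ ≤ D * s → ‖ctr (sR R) k - η'‖ ≤ D * s' →
  ∫⁻ z, ‖TP β (ctr (sR R) k) (sR R) G z‖ₑ ^ 2 *
      ENNReal.ofReal (wt (N + m + 3) (St η s r R₁ (z - z₀))) ≤
    C * ENNReal.ofReal ((min (R₁ * s) (Real.sqrt R) / Real.sqrt R) ^ m * (R₁ / R)) *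
      ∫⁻ z, ‖TP β (ctr (sR R) k) (sR R) G z‖ₑ ^ 2 *
        ENNReal.ofReal (wt N (St η' s' r R (z - z₀)))

/-- SSX: stability of the class under sub-sums -/
def T_SSX : Prop := ∀ (m L : ℕ) (β : E m → ℂ) (α D : ℝ), IsPU β → 1 ≤ D → 4 * m + 20 ≤ L →
  ∃ C : ℝ, 1 ≤ C ∧ ∀ (R R₁ A : ℝ) (G : Z m → ℂ) (G' : (Fin m → ℤ) → Z m → ℂ)
  (I : Finset (Fin m → ℤ)), 1 ≤ R₁ → R₁ ≤ R → 0 < A → TC G →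
  (∀ ζ, G ζ ≠ 0 → ζ ∈ Rg m (1 / 2) R⁻¹) → EnX L α R A G → Sub β D R G G' I →
  EnX L α R₁ (C * A * (R / R₁) ^ ((m : ℝ) / 2)) (fun ζ => ∑ k ∈ I, G' k ζ)

/-- SCX: stability of the class under localized sums of wave packets -/
def T_SCX : Prop := ∀ (m L : ℕ) (β : E m → ℂ) (Ψ Ξ : Z m → ℂ) (ψ χ : Z m → ℝ) (α δ : ℝ),
  IsPU β → IsPsi Ψ ψ → IsLow Ξ χ → 0 < δ → δ ≤ 1 / 4 → 4 * m + 20 ≤ L →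
  ∃ C : ℝ, 1 ≤ C ∧ ∀ (κ R r A : ℝ) (G G₁ : Z m → ℂ) (S : Finset (Pk m)) (z₁ : Z m), 0 ≤ κ →
  κ ≤ 3 / 8 → 1 ≤ R → C ≤ R ^ δ → Real.sqrt R ≤ r → r ≤ R / C → 0 < A → TC G →
  (∀ ζ, G ζ ≠ 0 → ζ ∈ Rg m κ R⁻¹) → EnX L α R A G → TC G₁ →
  (∀ z, TF G₁ z = (χ (r⁻¹ • (z - z₁)) : ℂ) * ∑ W ∈ S, Fp β ψ R δ G W z) →
  EnX L α r (C * A * (R / r) ^ ((m : ℝ) / 2)) G₁

/-- RSX: rescaling -/
def T_RSX : Prop := ∀ (m L : ℕ) (α : ℝ), ∃ C : ℝ, 1 ≤ C ∧ ∀ (R A : ℝ) (G G₁ : Z m → ℂ)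
  (φ : E m → ℂ) (η : E m) (s : ℝ), φ ∈ Bp m L → 0 < A → 0 < s → s ≤ 1 → 1 ≤ R * s ^ 2 → TC G →
  (∀ ζ, G ζ ≠ 0 → 1 / 4 ≤ ζ.1) → EnX L α R A G → TC G₁ →
  (∀ z, TF G₁ (Lo η s z) = TP φ η s G z) → EnX L α (R * s ^ 2) (C * A) G₁

/-- CPX: pieces in caps of fixed radius -/
def T_CPX : Prop := ∀ (m L : ℕ) (β : E m → ℂ) (α K : ℝ), IsPU β → 1 ≤ K → ∃ C : ℝ, 1 ≤ C ∧
  ∀ (R A : ℝ) (G : Z m → ℂ) (c : E m), 1 ≤ R → 0 < A → EnX L α R A G →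
  EnX L α R (C * A) (fun ζ => cp β c K⁻¹ ζ * G ζ)

/-- ENX: the energy in a ball of radius `R` -/
def T_ENX : Prop := ∀ (m L N : ℕ) (β : E m → ℂ) (α δ : ℝ), IsPU β → 0 < δ → m + 3 ≤ N →
  ∃ C : ℝ, 0 < C ∧ ∀ (R A : ℝ) (G : Z m → ℂ) (z₀ : Z m), 1 ≤ R → 0 < A → TC G →
  (∀ ζ, G ζ ≠ 0 → ζ ∈ Rg m (1 / 2) R⁻¹) → EnX L α R A G →
  Er N β R δ G z₀ ≤ ENNReal.ofReal (C * R ^ (lo m * δ) * (A ^ 2 * R ^ (1 + α)))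

/-- TBX: the energy in a tube -/
def T_TBX : Prop := ∀ (m L N : ℕ) (β : E m → ℂ) (α δ : ℝ), IsPU β → 0 < δ → m + 5 ≤ N →
  ∃ C : ℝ, 1 ≤ C ∧ ∀ (R A a b : ℝ) (G : Z m → ℂ) (S : Finset (Pk m)) (T : Pk m), 1 ≤ R →
  0 < A → 0 ≤ a → 0 ≤ b → TC G → (∀ ζ, G ζ ≠ 0 → ζ ∈ Rg m (1 / 2) R⁻¹) → EnX L α R A G →
  (∀ W ∈ S, tb R W = T ∧ a ≤ al N β R δ G W) → b ≤ S.card →
  b * a ^ 2 * R ^ ((m : ℝ) / 2) ≤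
    C * R ^ (lo m * δ) * (A ^ 2 * R ^ (min (α / 2) (α - (m : ℝ) / 2)))

end Pool.Agent.H83.FD
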