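import Pool.Agent.H83.FD.LOK
import Pool.Agent.H68.FD.AVX
import Pool.Agent.H68.FD.LVX
import Pool.Agent.H78.FD.CNK
import Pool.Agent.H78.FD.INX
import Pool.Agent.H42.FD.CPX
import Pool.Agent.H42.FD.ENX
import Pool.Agent.H33.FD.CST
import Pool.Agent.H33.FD.SCX
import Pool.Agent.H79.FD.RSX
import Pool.Agent.H4.FD.SSX
import Pool.Agent.H13.FD.TBX
import Pool.Agent.H94.FD.MainK
import Pool.Agent.H83.G.Chain

/-! MP_ee74d2_an, theorem FD: the class layer and the level set estimate, nothing assumed. -/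

set_option autoImplicit false

namespace Pool.Agent.H83.FD.All

open Pool.Agent.H83.FD
open Pool.Agent.H83.G.Chain (m_LOA m_LOI m_WT1 m_WT2 m_SCL m_LCN m_CPS m_PUB m_PUS m_SCH m_LOB
  m_PKT m_IVZ m_LO m_WM)

theorem m_AVX : T_AVX := Pool.Agent.H68.FD.AVX.pf_AVX m_LOA m_WT1 m_WT2

theorem m_LVX : T_LVX := Pool.Agent.H68.FD.LVX.pf_LVX m_LOA

theorem m_LOK : T_LOK := pf_LOK m_LVX m_LO m_WM m_PUS m_CPS m_SCH

theorem m_CNK : T_CNK := Pool.Agent.H78.FD.pf_CNK m_LOA m_LOI m_SCL m_LCN m_CPS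

theorem m_INX : T_INX := Pool.Agent.H78.FD.pf_INX

theorem m_CST : T_CST := Pool.Agent.H33.FD.CST.pf_CST m_CNK m_INX m_CPS m_SCH m_WT1

theorem m_SSX : T_SSX := Pool.Agent.H4.FD.SSX.pf_SSX m_LOK m_CST m_AVX m_PUS m_PUB m_CPS m_SCH

theorem m_SCX : T_SCX := Pool.Agent.H33.FD.SCX.pf_SCX m_PKT m_IVZ m_SSX

theorem m_RSX : T_RSX := Pool.Agent.H79.FD.RSX.pf_RSX m_LOA m_LOI m_SCL m_CPS m_IVZ

theorem m_CPX : T_CPX := Pool.Agent.H42.FD.CPX.pf_CPX m_PUB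

theorem m_ENX : T_ENX :=
  Pool.Agent.H42.FD.ENX.pf_ENX m_AVX m_LOA m_LOB m_PUS m_PUB m_WT1 m_SCH m_CPS

theorem m_TBX : T_TBX := Pool.Agent.H13.FD.pf_TBX m_AVX m_PUB m_SCH m_CPS

/-- the level set estimate at all scales for the class `Cls L ∧ EnX L α` -/
theorem m_MAINK {m L : ℕ} {α x : ℝ} (hm : 1 ≤ m) (hL : 4 * m + 20 ≤ L) (hα : α ≤ m + 1 / 3)
    (hx : 8 ≤ x * (6 * m + 3 - 2 * α - 2 * min (α / 2) (α - (m : ℝ) / 2))) (hx4 : x ≤ 4)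
    (hmx : 2 < m * x) : Pool.Agent.H82.FD.T_MAINK m x (Pool.Agent.H94.FD.KX m L α) :=
  Pool.Agent.H94.FD.maink_KX m_RSX m_CPX m_SCX m_ENX m_TBX hm hL hα hx hx4 hmx

end Pool.Agent.H83.FD.All
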