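import Pool.Agent.H88.FD.TargetsC
import Pool.Agent.H19.LS.STRONG

/-! Row BWF of theorem FD (MP_ee74d2_an): strong type with weights. -/

set_option autoImplicit false

namespace Pool.Agent.H83.FD

open MeasureTheory Set FourierTransform
open scoped ENNReal NNReal SchwartzMap
open Pool.Agent.H83.LS Pool.Agent.H19.LS Pool.Agent.H88.FD

/-- the quotient by the weight -/
noncomputable def qv {d : ℕ} (v : EE d → ℝ) (f : EE d → ℂ) (x : EE d) : ℂ :=
  (((v x)⁻¹ : ℝ) : ℂ) * f x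

theorem qv_norm {d : ℕ} (v : EE d → ℝ) (f : EE d → ℂ) (x : EE d) (hv : 0 < v x) :
    ‖f x‖ = v x * ‖qv v f x‖ := by
  unfold qv
  rw [norm_mul, Complex.norm_real, Real.norm_of_nonneg (inv_nonneg.2 hv.le), ← mul_assoc,
    mul_inv_cancel₀ hv.ne', one_mul]

theorem qv_meas {d : ℕ} {v : EE d → ℝ} {f : EE d → ℂ} (hv : Measurable v) (hf : Measurable f) :
    Measurable (qv v f) := by
  unfold qv
  exact (Complex.measurable_ofReal.comp hv.inv).mul hf

/-- the pieces -/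
noncomputable def pw {d : ℕ} (v : EE d → ℝ) (f : EE d → ℂ) (l : ℤ) : EE d → ℂ :=
  (lev (qv v f) l).indicator f

theorem pw_sum {d : ℕ} (v : EE d → ℝ) (f : EE d → ℂ) (x : EE d) (hv : 0 < v x) {β : Type}
    [AddCommMonoid β] [TopologicalSpace β] [T2Space β] (G : ℂ → β) (hG : G 0 = 0) :
    ∑' l : ℤ, G (pw v f l x) = G (f x) := by
  by_cases h : f x = 0
  · have h1 : ∀ l : ℤ, pw v f l x = 0 := by
      intro l
      unfold pw
      by_cases hx : x ∈ lev (qv v f) l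
      · rw [indicator_of_mem hx, h]
      · rw [indicator_of_notMem hx]
    simp [h1, hG, h]
  · have hq : qv v f x ≠ 0 := by
      unfold qv
      exact mul_ne_zero (Complex.ofReal_ne_zero.2 (inv_ne_zero hv.ne')) h
    obtain ⟨l, hl⟩ := lev_exists (qv v f) x hq
    rw [tsum_eq_single l]
    · unfold pw
      rw [indicator_of_mem hl]
    · intro l' hne
      have : x ∉ lev (qv v f) l' := fun hx => hne (lev_unique (qv v f) l' l x hx hl)
      unfold pw
      rw [indicator_of_notMem this, hG]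

theorem pw_le {d : ℕ} (v : EE d → ℝ) (f : EE d → ℂ) (l : ℤ) (x : EE d) (hv : 0 < v x) :
    ‖pw v f l x‖ ≤ (2 : ℝ) ^ ((l : ℝ) + 1) * v x := by
  unfold pw
  by_cases h : x ∈ lev (qv v f) l
  · rw [indicator_of_mem h, qv_norm v f x hv, mul_comm]
    exact mul_le_mul_of_nonneg_right h.2.le hv.le
  · rw [indicator_of_notMem h, norm_zero]
    positivity

theorem pw_meas {d : ℕ} {v : EE d → ℝ} {f : EE d → ℂ} (hv : Measurable v) (hf : Measurable f)
    (l : ℤ) : Measurable (pw v f l) := hf.indicator (lev_meas _ (qv_meas hv hf) l)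

theorem MM_tsumW {d : ℕ} (lam : ℝ) (hl : 0 < lam) (hPLE : T_PLE) (t A : ℝ) (v : EE d → ℝ)
    (f : EE d → ℂ) (hv : Measurable v) (hv0 : ∀ x, 0 < v x) (hf : Measurable f)
    (hfi : Integrable f) (hA : ∀ x, ‖f x‖ ≤ A) (x : EE d) :
    ‖MM (mT lam t) f x‖ₑ ≤ ∑' l : ℤ, ‖MM (mT lam t) (pw v f l) x‖ₑ := by
  have hpm : ∀ l, Measurable (pw v f l) := fun l => pw_meas hv hf l
  have hpi : ∀ l, Integrable (pw v f l) := fun l => hfi.indicator (lev_meas _ (qv_meas hv hf) l)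
  have hpA : ∀ l x, ‖pw v f l x‖ ≤ A := fun l x =>
    (norm_indicator_le_norm_self f x).trans (hA x)
  have e1 : MM (mT lam t) f x = ∑' l : ℤ, MM (mT lam t) (pw v f l) x := by
    rw [MM_conv lam hl hPLE t f hfi hf ⟨A, hA⟩ x]
    have e2 : ∀ l, MM (mT lam t) (pw v f l) x = ∫ y, MK (mT lam t) (x - y) * pw v f l y := fun l =>
      MM_conv lam hl hPLE t (pw v f l) (hpi l) (hpm l) ⟨A, hpA l⟩ x
    simp_rw [e2]
    rw [← integral_tsum]
    · refine integral_congr_ae (Filter.Eventually.of_forall fun y => ?_)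
      exact (pw_sum v f y (hv0 y) (fun z => MK (mT lam t) (x - y) * z) (mul_zero _)).symm
    · intro l
      exact (((MK_cont lam hl t).comp (continuous_const.sub continuous_id)).aestronglyMeasurable).mul
        (hpm l).aestronglyMeasurable
    · rw [← lintegral_tsum]
      · have e3 : ∀ y, ∑' l : ℤ, ‖MK (mT lam t) (x - y) * pw v f l y‖ₑ
            = ‖MK (mT lam t) (x - y) * f y‖ₑ := fun y =>
          pw_sum v f y (hv0 y) (fun z => ‖MK (mT lam t) (x - y) * z‖ₑ) (by simp)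
        simp_rw [e3]
        have e4 : Integrable fun y => MK (mT lam t) (x - y) * f y := by
          apply hfi.bdd_mul (c := ∫ ξ : EE d, ‖mT lam t ξ‖)
          · exact ((MK_cont lam hl t).comp
              (continuous_const.sub continuous_id)).aestronglyMeasurable
          · exact Filter.Eventually.of_forall fun y => MK_le lam hl t _
        exact e4.2.ne
      · intro l
        exact ((((MK_cont lam hl t).comp
          (continuous_const.sub continuous_id)).aestronglyMeasurable).mul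
          (hpm l).aestronglyMeasurable).enorm
  rw [e1]
  exact enorm_tsum_le_tsum_enorm

/-- the mass of a level set -/
noncomputable def mas {d : ℕ} (v : EE d → ℝ) (f : EE d → ℂ) (l : ℤ) : ℝ≥0∞ :=
  ∫⁻ x in lev (qv v f) l, ENNReal.ofReal (v x)

theorem pw_l1 {d : ℕ} {v : EE d → ℝ} {f : EE d → ℂ} (hv : Measurable v) (hv0 : ∀ x, 0 < v x)
    (hf : Measurable f) (l : ℤ) :
    ∫⁻ x, ‖pw v f l x‖ₑ ≤ ENNReal.ofReal ((2 : ℝ) ^ ((l : ℝ) + 1)) * mas v f l := by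
  have hm : MeasurableSet (lev (qv v f) l) := lev_meas _ (qv_meas hv hf) l
  unfold mas
  rw [← lintegral_const_mul' _ _ ENNReal.ofReal_ne_top, ← lintegral_indicator hm]
  refine lintegral_mono fun x => ?_
  by_cases h : x ∈ lev (qv v f) l
  · rw [indicator_of_mem h, ← ENNReal.ofReal_mul (by positivity), ← ofReal_norm]
    exact ENNReal.ofReal_le_ofReal (pw_le v f l x (hv0 x))
  · rw [indicator_of_notMem h]
    unfold pw
    rw [indicator_of_notMem h, enorm_zero]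

theorem mas_sum {d : ℕ} {v : EE d → ℝ} {f : EE d → ℂ} (hv : Measurable v) (hv0 : ∀ x, 0 < v x)
    (hf : Measurable f) (p : ℝ) (hp : 0 ≤ p) :
    ∑' l : ℤ, ENNReal.ofReal ((2 : ℝ) ^ ((l : ℝ) * p)) * mas v f l ≤
      ∫⁻ x, ‖f x‖ₑ ^ p * ENNReal.ofReal (v x) ^ (1 - p) := by
  have hm : ∀ l, MeasurableSet (lev (qv v f) l) := fun l => lev_meas _ (qv_meas hv hf) l
  calc ∑' l : ℤ, ENNReal.ofReal ((2 : ℝ) ^ ((l : ℝ) * p)) * mas v f l
      ≤ ∑' l : ℤ, ∫⁻ x in lev (qv v f) l, ‖f x‖ₑ ^ p * ENNReal.ofReal (v x) ^ (1 - p) := by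
        apply ENNReal.tsum_le_tsum
        intro l
        unfold mas
        rw [← lintegral_const_mul' _ _ ENNReal.ofReal_ne_top]
        apply setLIntegral_mono' (hm l)
        intro x hx
        have hvx := hv0 x
        rw [← ofReal_norm, ENNReal.ofReal_rpow_of_nonneg (norm_nonneg _) hp,
          ENNReal.ofReal_rpow_of_pos hvx, ← ENNReal.ofReal_mul (by positivity),
          ← ENNReal.ofReal_mul (by positivity)]
        apply ENNReal.ofReal_le_ofReal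
        have h1 : ‖f x‖ ^ p * v x ^ (1 - p) = ‖qv v f x‖ ^ p * v x := by
          rw [qv_norm v f x hvx, Real.mul_rpow hvx.le (norm_nonneg _)]
          have h2 : v x ^ p * v x ^ (1 - p) = v x := by
            rw [← Real.rpow_add hvx, add_sub_cancel, Real.rpow_one]
          calc v x ^ p * ‖qv v f x‖ ^ p * v x ^ (1 - p) =
              ‖qv v f x‖ ^ p * (v x ^ p * v x ^ (1 - p)) := by ring
            _ = _ := by rw [h2]
        rw [h1, Real.rpow_mul (by norm_num)]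
        exact mul_le_mul_of_nonneg_right (Real.rpow_le_rpow (by positivity) hx.1 hp) hvx.le
    _ = ∫⁻ x in ⋃ l, lev (qv v f) l, ‖f x‖ₑ ^ p * ENNReal.ofReal (v x) ^ (1 - p) := by
        rw [lintegral_iUnion hm]
        intro l l' hne
        rw [Function.onFun, Set.disjoint_left]
        intro x hx hx'
        exact hne (lev_unique (qv v f) l l' x hx hx')
    _ ≤ _ := setLIntegral_le_lintegral _ _

theorem pf_BWF (hMARC : T_MARC) (hPLE : T_PLE) : T_BWF := by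
  intro n α p₀ p hn hp₀ hp hRES η hη
  have hn0 : (0 : ℝ) < n := by
    have : 0 < n := by omega
    exact_mod_cast this
  have hp2 : 2 < p := by linarith
  obtain ⟨ν, hν0, hν⟩ := hRES (η / 2) (by positivity)
  set ν' : ℝ := min ν 1 with hν'
  have hν'0 : 0 < ν' := lt_min hν0 one_pos
  have hν'1 : ν' ≤ 1 := min_le_right _ _
  have hν'2 : ν' ≤ ν := min_le_left _ _
  set q₁ := p - ν' with hq₁
  set q₂ := p + η / n with hq₂
  have hηn : 0 < η / n := by positivity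
  obtain ⟨C₁, hC₁⟩ := hν q₁ (by linarith)
  obtain ⟨C₂, hC₂⟩ := hν q₂ (by linarith)
  obtain ⟨C, hC⟩ := hMARC q₁ p q₂ (by linarith) (by linarith) (by linarith)
  set C' : ℝ := C₁ * 2 ^ q₁ + C₂ * 2 ^ q₂ with hC'
  have hC'0 : 0 ≤ C' := by positivity
  refine ⟨C * C'.toNNReal, fun lam v fs hl hv => ?_⟩
  obtain ⟨hvm, hv01, hvB⟩ := hv
  have hv0 : ∀ x, 0 < v x := fun x => (hv01 x).1
  have hl0 : 0 < lam := by linarith
  obtain ⟨f, hfd⟩ : ∃ f : EE (n + 1) → ℂ, f = (fs : EE (n + 1) → ℂ) := ⟨_, rfl⟩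
  rw [← hfd]
  have hm : Measurable f := by rw [hfd]; exact fs.continuous.measurable
  have hfi : Integrable f := by rw [hfd]; exact fs.integrable
  obtain ⟨A, hA⟩ : ∃ A : ℝ, ∀ x, ‖f x‖ ≤ A := by
    obtain ⟨A, hA⟩ := fs.decay 0 0
    exact ⟨A, fun x => by rw [hfd]; simpa using hA.2 x⟩
  have hpm : ∀ l, Measurable (pw v f l) := fun l => pw_meas hvm hm l
  have hpi : ∀ l, Integrable (pw v f l) := fun l =>
    hfi.indicator (lev_meas _ (qv_meas hvm hm) l)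
  have hEx1 : (n : ℝ) * (q₁ / 2 - 1) - 1 + η / 2 ≤ (n : ℝ) * (p / 2 - 1) - 1 + η := by
    have : q₁ / 2 - 1 ≤ p / 2 - 1 := by linarith
    nlinarith
  have hEx2 : (n : ℝ) * (q₂ / 2 - 1) - 1 + η / 2 ≤ (n : ℝ) * (p / 2 - 1) - 1 + η := by
    have h1 : (n : ℝ) * (q₂ / 2 - 1) = (n : ℝ) * (p / 2 - 1) + η / 2 := by
      rw [hq₂]
      field_simp
      ring
    linarith
  set B : ℝ≥0∞ := ENNReal.ofReal (C' * lam ^ ((n : ℝ) * (p / 2 - 1) - 1 + η)) with hB
  have hgm : ∀ l : ℤ, Measurable fun y : ℝ × EE (n + 1) => ‖MM (mT lam y.1) (pw v f l) y.2‖ₑ :=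
    fun l => (MM_cont lam hl0 (pw v f l) (hpi l)).measurable.enorm
  have hgen : ∀ (q : ℝ) (Cq : ℝ≥0), 1 ≤ q → (Cq : ℝ) * 2 ^ q ≤ C' →
      (n : ℝ) * (q / 2 - 1) - 1 + η / 2 ≤ (n : ℝ) * (p / 2 - 1) - 1 + η →
      (∀ (lam a : ℝ) (v : EE (n + 1) → ℝ) (h : EE (n + 1) → ℂ), 1 ≤ lam → 0 < a →
        Wei α lam v → Measurable h → Integrable h → (∀ x, ‖h x‖ ≤ a * v x) →
        ∫⁻ t in Icc (1 : ℝ) 2, ∫⁻ x, ‖MM (mT lam t) h x‖ₑ ^ q ≤
          Cq * ENNReal.ofReal (lam ^ ((n : ℝ) * (q / 2 - 1) - 1 + η / 2) * a ^ (q - 1)) *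
            ∫⁻ x, ‖h x‖ₑ) →
      ∀ l : ℤ, ∫⁻ y, ‖MM (mT lam y.1) (pw v f l) y.2‖ₑ ^ q ∂(stm (n + 1)) ≤
        B * ENNReal.ofReal ((2 : ℝ) ^ ((l : ℝ) * q)) * mas v f l := by
    intro q Cq hq hCC hEx hR l
    rw [← st_eq (fun y => ‖MM (mT lam y.1) (pw v f l) y.2‖ₑ ^ q) ((hgm l).pow_const q)]
    have hpos : (0 : ℝ) < (2 : ℝ) ^ ((l : ℝ) + 1) := by positivity
    refine (hR lam _ v (pw v f l) hl hpos ⟨hvm, hv01, hvB⟩ (hpm l) (hpi l)
      (fun x => pw_le v f l x (hv0 x))).trans ?_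
    refine (mul_le_mul' le_rfl (pw_l1 hvm hv0 hm l)).trans ?_
    rw [← mul_assoc]
    apply mul_le_mul' _ le_rfl
    rw [← ENNReal.ofReal_coe_nnreal, ← ENNReal.ofReal_mul (NNReal.coe_nonneg Cq),
      ← ENNReal.ofReal_mul (by positivity), hB, ← ENNReal.ofReal_mul (by positivity)]
    apply ENNReal.ofReal_le_ofReal
    have e1 : ((2 : ℝ) ^ ((l : ℝ) + 1)) ^ (q - 1) * (2 : ℝ) ^ ((l : ℝ) + 1)
        = (2 : ℝ) ^ q * (2 : ℝ) ^ ((l : ℝ) * q) := by
      nth_rewrite 2 [← Real.rpow_one ((2 : ℝ) ^ ((l : ℝ) + 1))]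
      rw [← Real.rpow_add hpos, ← Real.rpow_mul (by norm_num), ← Real.rpow_add (by norm_num)]
      congr 1
      ring
    have e2 : lam ^ ((n : ℝ) * (q / 2 - 1) - 1 + η / 2) ≤
        lam ^ ((n : ℝ) * (p / 2 - 1) - 1 + η) :=
      Real.rpow_le_rpow_of_exponent_le hl hEx
    calc (Cq : ℝ) * (lam ^ ((n : ℝ) * (q / 2 - 1) - 1 + η / 2) *
          ((2 : ℝ) ^ ((l : ℝ) + 1)) ^ (q - 1)) * (2 : ℝ) ^ ((l : ℝ) + 1)
        = (Cq : ℝ) * lam ^ ((n : ℝ) * (q / 2 - 1) - 1 + η / 2) *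
            (((2 : ℝ) ^ ((l : ℝ) + 1)) ^ (q - 1) * (2 : ℝ) ^ ((l : ℝ) + 1)) := by ring
      _ = (Cq * 2 ^ q) * lam ^ ((n : ℝ) * (q / 2 - 1) - 1 + η / 2) *
            (2 : ℝ) ^ ((l : ℝ) * q) := by
          rw [e1]
          ring
      _ ≤ _ := by gcongr
  have h1 := hC (ℝ × EE (n + 1)) (stm (n + 1)) (fun l y => ‖MM (mT lam y.1) (pw v f l) y.2‖ₑ)
    (fun l => mas v f l) B hgm
    (hgen q₁ C₁ (by linarith) (by
      have : 0 ≤ (C₂ : ℝ) * 2 ^ q₂ := by positivity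
      linarith) hEx1 hC₁)
    (hgen q₂ C₂ (by linarith) (by
      have : 0 ≤ (C₁ : ℝ) * 2 ^ q₁ := by positivity
      linarith) hEx2 hC₂)
  rw [st_eq (fun q => ‖MM (mT lam q.1) f q.2‖ₑ ^ p)
    ((MM_cont lam hl0 f hfi).measurable.enorm.pow_const p)]
  calc ∫⁻ q, ‖MM (mT lam q.1) f q.2‖ₑ ^ p ∂(stm (n + 1))
      ≤ ∫⁻ q, (∑' l : ℤ, ‖MM (mT lam q.1) (pw v f l) q.2‖ₑ) ^ p ∂(stm (n + 1)) := by
        refine lintegral_mono fun q => ?_
        exact ENNReal.rpow_le_rpow (MM_tsumW lam hl0 hPLE q.1 A v f hvm hv0 hm hfi hA q.2)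
          (by linarith)
    _ ≤ _ := h1
    _ ≤ C * B * ∫⁻ x, ‖f x‖ₑ ^ p * ENNReal.ofReal (v x) ^ (1 - p) :=
        mul_le_mul' le_rfl (mas_sum hvm hv0 hm p (by linarith))
    _ = _ := by
        rw [hB, ENNReal.ofReal_mul hC'0]
        push_cast
        rw [← mul_assoc]
        rfl

end Pool.Agent.H83.FD
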