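import Pool.Agent.H88.FD.TargetsC
import Pool.Agent.H19.LS.STRONG
import Pool.Agent.H27.LS.Chi

/-! Row KWF of theorem FD (MP_ee74d2_an): the smooth part at frequency `λ`. -/

set_option autoImplicit false

namespace Pool.Agent.H83.FD

open MeasureTheory Set FourierTransform
open scoped ENNReal NNReal SchwartzMap ContDiff
open Pool.Agent.H83.LS Pool.Agent.H19.LS Pool.Agent.H88.FD

/-- the symbol -/
noncomputable def ks {d : ℕ} (lam : ℝ) (ξ : EE d) : ℂ := ((chis (‖ξ‖ / lam) : ℝ) : ℂ)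

theorem chi_chis (s : ℝ) : chi s * chis s = chi s := by
  by_cases h : chi s = 0
  · rw [h, zero_mul]
  · obtain ⟨h1, h2⟩ := chi_supp s h
    rw [Pool.Agent.H83.LS.H27.chis_one h1 h2, mul_one]

section

variable {d : ℕ} (lam : ℝ) (hl : 0 < lam)

theorem ks_cont : Continuous (ks (d := d) lam) := by
  unfold ks
  exact Complex.continuous_ofReal.comp (chis_smooth.continuous.comp (by fun_prop))

theorem ks_le (ξ : EE d) : ‖ks lam ξ‖ ≤ 1 := by
  unfold ks
  rw [Complex.norm_real]
  exact chis_abs _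

include hl

theorem ks_supp (ξ : EE d) (h : ks lam ξ ≠ 0) : ‖ξ‖ ≤ 4 * lam := by
  have h1 : chis (‖ξ‖ / lam) ≠ 0 := by
    intro h0
    apply h
    unfold ks
    rw [h0]
    simp
  have h2 := (Pool.Agent.H19.LS.chis_supp _ h1).2
  rwa [div_le_iff₀ hl] at h2

theorem ks_cs : HasCompactSupport (ks (d := d) lam) := by
  refine HasCompactSupport.of_support_subset_isCompact
    (isCompact_closedBall (0 : EE d) (4 * lam)) ?_
  intro ξ hξ
  rw [mem_closedBall_zero_iff]
  exact ks_supp lam hl ξ hξ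

theorem ks_int : Integrable (ks (d := d) lam) :=
  (ks_cont lam).integrable_of_hasCompactSupport (ks_cs lam hl)

theorem ksF_int (h : EE d → ℂ) (hh : Integrable h) : Integrable fun ξ => ks lam ξ * 𝓕 h ξ :=
  ((ks_cont lam).mul (fourier_cont h hh)).integrable_of_hasCompactSupport
    ((ks_cs lam hl).mul_right)

theorem MMks_cont (h : EE d → ℂ) (hh : Integrable h) : Continuous (MM (ks lam) h) := by
  unfold MM
  have h1 := ksF_int lam hl h hh
  apply continuous_of_dominated (bound := fun ξ : EE d => ‖ks lam ξ * 𝓕 h ξ‖)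
  · intro p
    exact ((continuous_e.comp (by fun_prop)).mul
      ((ks_cont lam).mul (fourier_cont h hh))).aestronglyMeasurable
  · intro p
    refine Filter.Eventually.of_forall fun ξ => ?_
    rw [norm_mul, norm_e, one_mul]
  · exact h1.norm
  · refine Filter.Eventually.of_forall fun ξ => ?_
    exact (continuous_e.comp (by fun_prop)).mul continuous_const

theorem MKks_cont : Continuous (MK (ks (d := d) lam)) := by
  unfold MK
  apply continuous_of_dominated (bound := fun ξ : EE d => ‖ks lam ξ‖)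
  · intro p
    exact ((continuous_e.comp (by fun_prop)).mul (ks_cont lam)).aestronglyMeasurable
  · intro p
    refine Filter.Eventually.of_forall fun ξ => ?_
    rw [norm_mul, norm_e, one_mul]
  · exact (ks_int lam hl).norm
  · refine Filter.Eventually.of_forall fun ξ => ?_
    exact (continuous_e.comp (by fun_prop)).mul continuous_const

end

theorem fourier_MMks {d : ℕ} (lam : ℝ) (hl : 0 < lam) (h : EE d → ℂ) (hh : Integrable h)
    (hf : Integrable (MM (ks lam) h)) : 𝓕 (MM (ks lam) h) = fun ξ => ks lam ξ * 𝓕 h ξ := by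
  set F : EE d → ℂ := fun ξ => ks lam ξ * 𝓕 h ξ with hF
  have h1 : MM (ks lam) h = 𝓕⁻ F := by
    funext x
    rw [MM_fourier, Real.fourierInv_eq_fourier_neg]
  have hFc : Continuous F := (ks_cont lam).mul (fourier_cont h hh)
  have hFi : Integrable F := ksF_int lam hl h hh
  have h2 : Integrable (𝓕 F) := by
    have h3 : (𝓕 F) = fun x => MM (ks lam) h (-x) := by
      funext x
      rw [MM_fourier, neg_neg]
    rw [h3]
    exact hf.comp_neg
  rw [h1]
  exact hFc.fourier_fourierInv_eq hFi h2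

theorem pf_KWF (hRADL : T_RADL) (hPLE : T_PLE) : T_KWF := by
  intro n α hn hα hα1
  obtain ⟨M, C1, hC1⟩ := hRADL (n + 1) (by omega)
  obtain ⟨B, hB0, hB⟩ := chis_CB M
  set C : ℝ := max 1 (C1 * B) with hC
  have hC1' : 1 ≤ C := le_max_left _ _
  have hC0 : 0 < C := by linarith
  refine ⟨C, hC1', ?_⟩
  intro lam a v h hl ha hv hm hi hle
  obtain ⟨hvm, hv01, hvB⟩ := hv
  have hl0 : 0 < lam := by linarith
  -- the kernel
  have hK : ∫⁻ x : EE (n + 1), ‖MK (ks lam) x‖ₑ ≤ ENNReal.ofReal C := by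
    have h1 := (hC1 (fun σ => ((chis σ : ℝ) : ℂ)) B lam 0 hB hl0 le_rfl).1
    have h2 : ∀ x : EE (n + 1), rk (fun σ => ((chis σ : ℝ) : ℂ)) lam 0 x = MK (ks lam) x := by
      intro x
      unfold rk
      congr 1
      funext ξ
      unfold ks
      simp [e]
    simp_rw [h2] at h1
    refine h1.trans (ENNReal.ofReal_le_ofReal ?_)
    rw [mul_zero, add_zero, Real.one_rpow, mul_one]
    exact le_max_right _ _
  have hKm : Measurable fun u : EE (n + 1) => ‖MK (ks lam) u‖ₑ :=
    (MKks_cont lam hl0).measurable.enorm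
  have hhm : Measurable fun u : EE (n + 1) => ‖h u‖ₑ := hm.enorm
  have hha : ∀ x, ‖h x‖ ≤ a := fun x => by
    have h1 := hle x
    have h2 := (hv01 x).2
    nlinarith
  have hrep : ∀ x, MM (ks lam) h x = ∫ y, MK (ks lam) (x - y) * h y := fun x =>
    (hPLE (n + 1) (ks lam) h (ks_cont lam).measurable (ks_le lam) (ks_int lam hl0) hi
      ⟨a, hha⟩ hm).1 x
  have hb : ∀ x, ‖MM (ks lam) h x‖ₑ ≤ ∫⁻ u, ‖MK (ks lam) u‖ₑ * ‖h (x - u)‖ₑ := by
    intro x
    rw [hrep x]
    refine (enorm_integral_le_lintegral_enorm _).trans (le_of_eq ?_)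
    have h1 := lintegral_sub_left_eq_self (μ := (volume : Measure (EE (n + 1))))
      (fun u => ‖MK (ks lam) u‖ₑ * ‖h (x - u)‖ₑ) x
    rw [← h1]
    refine lintegral_congr fun y => ?_
    rw [enorm_mul, sub_sub_cancel]
  have hcont := MMks_cont lam hl0 h hi
  -- integrals over sets
  have hset : ∀ S : Set (EE (n + 1)), MeasurableSet S → ∀ W : ℝ≥0∞,
      (∀ u, ∫⁻ x in S, ‖h (x - u)‖ₑ ≤ W) → ∫⁻ x in S, ‖MM (ks lam) h x‖ₑ ≤
        ENNReal.ofReal C * W := by
    intro S hS W hW
    calc ∫⁻ x in S, ‖MM (ks lam) h x‖ₑ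
        ≤ ∫⁻ x in S, ∫⁻ u, ‖MK (ks lam) u‖ₑ * ‖h (x - u)‖ₑ := lintegral_mono fun x => hb x
      _ = ∫⁻ u, ∫⁻ x in S, ‖MK (ks lam) u‖ₑ * ‖h (x - u)‖ₑ := by
          refine lintegral_lintegral_swap (Measurable.aemeasurable ?_)
          exact (hKm.comp measurable_snd).mul (hhm.comp (measurable_fst.sub measurable_snd))
      _ ≤ ∫⁻ u, ‖MK (ks lam) u‖ₑ * W := by
          refine lintegral_mono fun u => ?_
          rw [lintegral_const_mul' _ _ enorm_ne_top]
          exact mul_le_mul' le_rfl (hW u)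
      _ = (∫⁻ u, ‖MK (ks lam) u‖ₑ) * W := lintegral_mul_const _ hKm
      _ ≤ _ := mul_le_mul' hK le_rfl
  have hL1 : ∫⁻ x, ‖MM (ks lam) h x‖ₑ ≤ ENNReal.ofReal C * ∫⁻ x, ‖h x‖ₑ := by
    have h1 := hset univ MeasurableSet.univ (∫⁻ x, ‖h x‖ₑ) (fun u => by
      rw [setLIntegral_univ]
      exact (lintegral_sub_right_eq_self (fun x => ‖h x‖ₑ) u).le)
    rwa [setLIntegral_univ] at h1
  have hfi : Integrable (MM (ks lam) h) := by
    refine ⟨hcont.aestronglyMeasurable, ?_⟩
    exact lt_of_le_of_lt hL1 (ENNReal.mul_lt_top ENNReal.ofReal_lt_top hi.2)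
  refine ⟨MM (ks lam) h, hcont.measurable, hfi, ?_, ?_, hL1, ?_⟩
  · intro x
    have h1 : ‖MM (ks lam) h x‖ₑ ≤ ENNReal.ofReal (C * a) := by
      calc ‖MM (ks lam) h x‖ₑ ≤ ∫⁻ u, ‖MK (ks lam) u‖ₑ * ‖h (x - u)‖ₑ := hb x
        _ ≤ ∫⁻ u, ‖MK (ks lam) u‖ₑ * ENNReal.ofReal a := by
            refine lintegral_mono fun u => mul_le_mul' le_rfl ?_
            rw [← ofReal_norm]
            exact ENNReal.ofReal_le_ofReal (hha _)
        _ = (∫⁻ u, ‖MK (ks lam) u‖ₑ) * ENNReal.ofReal a := lintegral_mul_const _ hKm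
        _ ≤ ENNReal.ofReal C * ENNReal.ofReal a := mul_le_mul' hK le_rfl
        _ = _ := (ENNReal.ofReal_mul hC0.le).symm
    rw [← ofReal_norm] at h1
    exact (ENNReal.ofReal_le_ofReal_iff (by positivity)).1 h1
  · intro x ρ hρ1 hρ2
    have h1 := hset (Metric.closedBall x ρ) Metric.isClosed_closedBall.measurableSet
      (ENNReal.ofReal (a * (lam ^ (α - ((n : ℝ) + 1)) * ρ ^ α))) (fun u => by
        have h2 : ∫⁻ y in Metric.closedBall x ρ, ‖h (y - u)‖ₑ =
            ∫⁻ y in Metric.closedBall (x - u) ρ, ‖h y‖ₑ := by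
          rw [← lintegral_indicator Metric.isClosed_closedBall.measurableSet,
            ← lintegral_indicator Metric.isClosed_closedBall.measurableSet,
            ← lintegral_sub_right_eq_self ((Metric.closedBall (x - u) ρ).indicator
              fun y => ‖h y‖ₑ) u]
          refine lintegral_congr fun y => ?_
          have h3 : y ∈ Metric.closedBall x ρ ↔ y - u ∈ Metric.closedBall (x - u) ρ := by
            rw [Metric.mem_closedBall, Metric.mem_closedBall, dist_eq_norm, dist_eq_norm,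
              sub_sub_sub_cancel_right]
          by_cases hy : y ∈ Metric.closedBall x ρ
          · rw [indicator_of_mem hy, indicator_of_mem (h3.1 hy)]
          · rw [indicator_of_notMem hy, indicator_of_notMem fun h4 => hy (h3.2 h4)]
        rw [h2]
        calc ∫⁻ y in Metric.closedBall (x - u) ρ, ‖h y‖ₑ
            ≤ ∫⁻ y in Metric.closedBall (x - u) ρ, ENNReal.ofReal a * ENNReal.ofReal (v y) := by
              refine lintegral_mono fun y => ?_
              rw [← ENNReal.ofReal_mul ha.le, ← ofReal_norm]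
              exact ENNReal.ofReal_le_ofReal (hle y)
          _ = ENNReal.ofReal a * ∫⁻ y in Metric.closedBall (x - u) ρ, ENNReal.ofReal (v y) :=
              lintegral_const_mul' _ _ ENNReal.ofReal_ne_top
          _ ≤ ENNReal.ofReal a * ENNReal.ofReal (lam ^ (α - ((n : ℝ) + 1)) * ρ ^ α) :=
              mul_le_mul' le_rfl (hvB _ _ hρ1 hρ2)
          _ = _ := (ENNReal.ofReal_mul ha.le).symm)
    refine h1.trans (le_of_eq ?_)
    rw [← ENNReal.ofReal_mul hC0.le]
    congr 1
    ring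
  · intro t x
    unfold MM
    have hF := fourier_MMks lam hl0 h hi hfi
    unfold MM at hF
    rw [hF]
    refine integral_congr_ae (Filter.Eventually.of_forall fun ξ => ?_)
    simp only
    congr 1
    unfold mT ks
    have h1 : (((chi (‖ξ‖ / lam) : ℝ) : ℂ)) * ((chis (‖ξ‖ / lam) : ℝ) : ℂ) =
        ((chi (‖ξ‖ / lam) : ℝ) : ℂ) := by
      rw [← Complex.ofReal_mul, chi_chis]
    linear_combination (e (t * ‖ξ‖) * 𝓕 h ξ) * h1

end Pool.Agent.H83.FD
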