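import Pool.Agent.H83.FD.TargetsB
import Pool.Agent.H91.G.SSA

/-! Row LOK of the board fdb_modules. -/

set_option autoImplicit false

namespace Pool.Agent.H83.FD

open Pool.Agent.H83.G Pool.Agent.H91.G MeasureTheory Set
open scoped ENNReal NNReal RealInnerProductSpace

theorem sR_pos' {R : ℝ} (hR : 0 < R) : 0 < sR R := by
  unfold sR
  have := Real.sqrt_pos.2 hR
  positivity

theorem TC_sum' {m : ℕ} {ι : Type} (I : Finset ι) (G : ι → Z m → ℂ) (h : ∀ k ∈ I, TC (G k)) :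
    TC (fun ζ => ∑ k ∈ I, G k ζ) := by
  classical
  induction I using Finset.induction_on with
  | empty =>
    refine ⟨by simpa using contDiff_const, ?_⟩
    have he : (fun ζ : Z m => ∑ k ∈ (∅ : Finset ι), G k ζ) = (0 : Z m → ℂ) := by
      funext ζ
      simp
    rw [he]
    exact HasCompactSupport.zero
  | insert a I ha ih =>
    have h1 := h a (Finset.mem_insert_self _ _)
    have h2 := ih fun k hk => h k (Finset.mem_insert_of_mem hk)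
    have he : (fun ζ => ∑ k ∈ insert a I, G k ζ) = fun ζ => G a ζ + ∑ k ∈ I, G k ζ := by
      funext ζ
      rw [Finset.sum_insert ha]
    rw [he]
    exact ⟨h1.1.add h2.1, h1.2.add h2.2⟩

theorem exists_ctr {m : ℕ} (hPUS : T_PUS) {β : E m → ℂ} (hβ : IsPU β) {σ : ℝ} (hσ : 0 < σ)
    (x : E m) : ∃ k : Fin m → ℤ, ‖x - ctr σ k‖ < σ := by
  by_contra hcon
  push Not at hcon
  have h1 := ((hPUS m).1 β σ hβ hσ).1 x
  have h2 : (fun k => β (σ⁻¹ • (x - ctr σ k))) = fun _ => 0 := by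
    funext k
    apply hβ.2.1
    rw [norm_smul, norm_inv, Real.norm_of_nonneg hσ.le, ← div_eq_inv_mul, le_div_iff₀ hσ, one_mul]
    exact hcon k
  rw [h2] at h1
  exact zero_ne_one (h1.unique hasSum_zero).symm

/-- the pieces of a sum in few caps -/
theorem sq_sum_le {m : ℕ} {ι : Type} (I : Finset ι) (f : ι → Z m → ℂ) (z : Z m) (B : ℝ≥0∞)
    (hB : (I.card : ℝ≥0∞) ≤ B) : ‖∑ k ∈ I, f k z‖ₑ ^ 2 ≤ B * ∑ k ∈ I, ‖f k z‖ₑ ^ 2 := by
  have h1 : ‖∑ k ∈ I, f k z‖ ^ 2 ≤ (I.card : ℝ) * ∑ k ∈ I, ‖f k z‖ ^ 2 := by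
    have h2 : ‖∑ k ∈ I, f k z‖ ≤ ∑ k ∈ I, ‖f k z‖ := norm_sum_le _ _
    calc ‖∑ k ∈ I, f k z‖ ^ 2 ≤ (∑ k ∈ I, ‖f k z‖) ^ 2 := by gcongr
      _ ≤ (I.card : ℝ) * ∑ k ∈ I, ‖f k z‖ ^ 2 := sq_sum_le_card_mul_sum_sq
  have h3 : ‖∑ k ∈ I, f k z‖ₑ ^ 2 = ENNReal.ofReal (‖∑ k ∈ I, f k z‖ ^ 2) := by
    rw [← ofReal_norm, ENNReal.ofReal_pow (norm_nonneg _)]
  have h4 : ∀ k, ‖f k z‖ₑ ^ 2 = ENNReal.ofReal (‖f k z‖ ^ 2) := fun k => by
    rw [← ofReal_norm, ENNReal.ofReal_pow (norm_nonneg _)]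
  rw [h3, Finset.sum_congr rfl fun k _ => h4 k, ← ENNReal.ofReal_sum_of_nonneg fun k _ => by positivity]
  refine (ENNReal.ofReal_le_ofReal h1).trans ?_
  rw [ENNReal.ofReal_mul (by positivity), ENNReal.ofReal_natCast]
  gcongr

theorem pf_LOK (hLVX : T_LVX) (hLO : T_LO) (hWM : T_WM) (hPUS : T_PUS) (hCPS : T_CPS)
    (hSCH : T_SCH) : T_LOK := by
  intro m N L β D hβ hD hN hL
  obtain ⟨_, _, Cp, hCp0, _, hcount, _⟩ := hPUS m
  set D' : ℝ := 2 + 2 * D with hD'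
  have hD'1 : 1 ≤ D' := by rw [hD']; linarith
  set N₀ : ℕ := ⌈Cp * (1 + 2 * D') ^ m⌉₊ with hN₀
  obtain ⟨C1, hC1⟩ := hLVX m N
  obtain ⟨C2, hC2⟩ := hLO m (N + 2) N₀ D' (by omega) hD'1
  obtain ⟨C3, hC3⟩ := hWM m (N + 2) L 1 (by omega) zero_le_one
  set CN : ℝ := Cp * 2 ^ m with hCN
  have hCN0 : 0 < CN := by positivity
  refine ⟨2 ^ (N + 2) * C3 * C2 * (Real.toNNReal CN) * (Real.toNNReal (D ^ 2)) * C1, ?_⟩
  intro R R₁ s r G G' I φ x η z₀ hR₁ hRR hTCG hGR hSub hφ hxη hsR hs1 hr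
  obtain ⟨hTCG', hsupp, hdom⟩ := hSub
  have hR₁0 : 0 < R₁ := by linarith
  have hR : 1 ≤ R := hR₁.trans hRR
  have hR0 : 0 < R := by linarith
  have hsq1 : 0 < Real.sqrt R₁ := Real.sqrt_pos.2 hR₁0
  have hsq : 0 < Real.sqrt R := Real.sqrt_pos.2 hR0
  set σ₁ : ℝ := sR R₁ with hσ₁
  have hσ₁0 : 0 < σ₁ := sR_pos' hR₁0
  have hσ₁e : σ₁ = (Real.sqrt R₁)⁻¹ := rfl
  have hs0 : 0 < s := lt_of_lt_of_le hσ₁0 hsR
  set τ : ℝ := sR R with hτ
  have hτ0 : 0 < τ := sR_pos' hR0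
  have hτe : τ = (Real.sqrt R)⁻¹ := rfl
  have hτσ₁ : τ ≤ σ₁ := by
    rw [hτe, hσ₁e]
    exact inv_anti₀ hsq1 (Real.sqrt_le_sqrt hRR)
  set ρ : ℝ := R₁ * s ^ 2 with hρ
  have hss : 1 ≤ s * Real.sqrt R₁ := by
    rw [hσ₁e] at hsR
    rwa [inv_le_iff_one_le_mul₀ hsq1] at hsR
  have hρss : ρ = (s * Real.sqrt R₁) ^ 2 := by
    rw [hρ, mul_pow, Real.sq_sqrt hR₁0.le]; ring
  have hρ1 : 1 ≤ ρ := by
    rw [hρss]; exact one_le_pow₀ hss
  have hρ0 : 0 < ρ := by linarith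
  -- the radius `σ`
  obtain ⟨σ, hσdef⟩ : ∃ σ : ℝ, σ = max τ (1 / (R₁ * s)) := ⟨_, rfl⟩
  have hτσ : τ ≤ σ := by rw [hσdef]; exact le_max_left _ _
  have hσ0 : 0 < σ := lt_of_lt_of_le hτ0 hτσ
  have hσσ₁ : σ ≤ σ₁ := by
    rw [hσdef]
    refine max_le hτσ₁ ?_
    rw [hσ₁e, one_div]
    refine inv_anti₀ hsq1 ?_
    have h1 : R₁ * s = Real.sqrt R₁ * (s * Real.sqrt R₁) := by
      nth_rewrite 1 [← Real.mul_self_sqrt hR₁0.le]; ring
    rw [h1]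
    exact le_mul_of_one_le_right hsq1.le hss
  have hsρσ : s ≤ ρ * σ := by
    have h1 : 1 / (R₁ * s) ≤ σ := by rw [hσdef]; exact le_max_right _ _
    calc s = ρ * (1 / (R₁ * s)) := by rw [hρ]; field_simp
      _ ≤ ρ * σ := by gcongr
  have hsρσ₁ : s ≤ ρ * σ₁ := hsρσ.trans (by gcongr)
  have hσR : σ * Real.sqrt R = max 1 (Real.sqrt R / (R₁ * s)) := by
    rw [hσdef, max_mul_of_nonneg _ _ hsq.le, hτe, inv_mul_cancel₀ hsq.ne']
    congr 1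
    ring
  -- the relevant caps
  set I' : Finset (Fin m → ℤ) := I.filter (fun k => ‖ctr τ k - x‖ ≤ 2 * D * σ₁) with hI'
  have hI'I : ∀ k ∈ I', k ∈ I := fun k hk => (Finset.mem_filter.1 hk).1
  have hI'd : ∀ k ∈ I', ‖ctr τ k - x‖ ≤ 2 * D * σ₁ := fun k hk => (Finset.mem_filter.1 hk).2
  have hTCI' : ∀ k ∈ I', TC (G' k) := fun k hk => hTCG' k (hI'I k hk)
  have hTPeq : ∀ z, TP φ x σ₁ (fun ζ => ∑ k ∈ I, G' k ζ) z =
      TP φ x σ₁ (fun ζ => ∑ k ∈ I', G' k ζ) z := by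
    intro z
    unfold TP
    congr 1
    funext ζ
    rw [Finset.mul_sum, Finset.mul_sum]
    symm
    refine Finset.sum_subset (Finset.filter_subset _ _) fun k hk hk' => ?_
    by_contra hne
    have hg : G' k ζ ≠ 0 := right_ne_zero_of_mul hne
    have hc : cp φ x σ₁ ζ ≠ 0 := left_ne_zero_of_mul hne
    apply hk'
    rw [hI', Finset.mem_filter]
    refine ⟨hk, ?_⟩
    have h3 := (hsupp k hk ζ hg).2.2
    have h4 : ‖ζ.1⁻¹ • ζ.2.1 - x‖ ≤ σ₁ := by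
      by_contra hcon
      rw [not_le] at hcon
      apply hc
      unfold cp
      apply hφ.2.1
      rw [norm_smul, norm_inv, Real.norm_of_nonneg hσ₁0.le, ← div_eq_inv_mul, le_div_iff₀ hσ₁0,
        one_mul]
      exact hcon.le
    calc ‖ctr τ k - x‖ = ‖(ζ.1⁻¹ • ζ.2.1 - x) - (ζ.1⁻¹ • ζ.2.1 - ctr τ k)‖ := by
          congr 1; abel
      _ ≤ ‖ζ.1⁻¹ • ζ.2.1 - x‖ + ‖ζ.1⁻¹ • ζ.2.1 - ctr τ k‖ := norm_sub_le _ _
      _ ≤ σ₁ + D * τ := by gcongr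
      _ ≤ σ₁ + D * σ₁ := by gcongr
      _ ≤ 2 * D * σ₁ := by nlinarith
  -- grouping
  choose kp hkp using fun k : Fin m → ℤ => exists_ctr hPUS hβ hσ0 (ctr τ k)
  classical
  set Q : Finset (Fin m → ℤ) := I'.image kp with hQ
  set H : (Fin m → ℤ) → Z m → ℂ := fun q ζ => ∑ k ∈ I'.filter (fun k => kp k = q), G' k ζ with hH
  have hTCH : ∀ q ∈ Q, TC (H q) := fun q _ =>
    TC_sum' _ _ fun k hk => hTCI' k (Finset.mem_filter.1 hk).1
  have hTFH : ∀ q z, TF (H q) z = ∑ k ∈ I'.filter (fun k => kp k = q), TF (G' k) z := fun q z =>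
    TF_sum _ _ (fun k hk => hTCI' k (Finset.mem_filter.1 hk).1) z
  have hsumH : ∀ z, TF (fun ζ => ∑ k ∈ I', G' k ζ) z = ∑ q ∈ Q, TF (H q) z := by
    intro z
    rw [TF_sum I' G' hTCI' z, Finset.sum_congr rfl fun q _ => hTFH q z,
      Finset.sum_fiberwise_of_maps_to (fun k hk => Finset.mem_image_of_mem _ hk)]
  -- number of caps in a group
  have hNq : ∀ q, (((I'.filter (fun k => kp k = q)).card : ℕ) : ℝ) ≤
      CN * (max 1 (Real.sqrt R / (R₁ * s))) ^ m := by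
    intro q
    have h1 := hcount τ σ (ctr σ q) (I'.filter (fun k => kp k = q)) hτ0 hσ0.le (by
      intro k hk
      have h2 := hkp k
      rw [(Finset.mem_filter.1 hk).2] at h2
      exact h2.le)
    refine h1.trans ?_
    have h3 : σ / τ = σ * Real.sqrt R := by rw [hτe, div_inv_eq_mul]
    rw [h3, hσR, hCN, mul_assoc, ← mul_pow]
    have h4 : 1 ≤ max 1 (Real.sqrt R / (R₁ * s)) := le_max_left _ _
    gcongr
    linarith
  -- measurability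
  have hG1 : ∀ ζ, G ζ ≠ 0 → 1 / 4 ≤ ζ.1 := by
    intro ζ hζ
    have := (hGR ζ hζ).1
    linarith
  have hTPm : ∀ k, Measurable (fun z => ‖TP β (ctr τ k) τ G z‖ₑ ^ 2) := by
    intro k
    have h1 : TC (fun ζ => cp β (ctr τ k) τ ζ * G ζ) :=
      hCPS m β (ctr τ k) τ G hβ.1 hτ0 hTCG hG1
    have h2 : Continuous (TF (fun ζ => cp β (ctr τ k) τ ζ * G ζ)) := (hSCH m _ h1).1
    exact h2.measurable.enorm.pow_const 2
  -- the planks
  obtain ⟨J, hJ1, hJ2⟩ := hC1 η s r R₁ z₀ hs0 hR₁0 hr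
  set w : Z m → Z m → ℝ≥0∞ := fun y z => ENNReal.ofReal (wt (N + 2) (ρ⁻¹ • Lo η s z - y)) with hw
  have hwm : ∀ y, Measurable (w y) := by
    intro y
    rw [hw]
    unfold wt Lo
    fun_prop
  have hmk : ∀ k y, Measurable (fun z => ‖TP β (ctr τ k) τ G z‖ₑ ^ 2 * w y z) :=
    fun k y => (hTPm k).mul (hwm y)
  have hVm : MeasurableSet (VX η s r R₁ z₀) := by
    have hc1 : Continuous (fun z : Z m => |(Lo η s (z - z₀)).1|) := by
      unfold Lo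
      fun_prop
    have hc2 : Continuous (fun z : Z m => ‖(Lo η s (z - z₀)).2‖) := by
      unfold Lo
      fun_prop
    exact ((isClosed_le hc1 continuous_const).inter (isClosed_le hc2 continuous_const)).measurableSet
  have hone : ∀ z ∈ VX η s r R₁ z₀, (1 : ℝ≥0∞) ≤ 2 ^ (N + 2) * ∑ y ∈ J, w y z := by
    intro z hz
    obtain ⟨y, hy, hyz⟩ := hJ1 z hz
    have h1 : w y z ≤ ∑ y ∈ J, w y z := Finset.single_le_sum (f := fun y => w y z) (fun _ _ => bot_le) hy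
    refine le_trans ?_ (mul_le_mul' le_rfl h1)
    have h2 : (2 : ℝ≥0∞) ^ (N + 2) = ENNReal.ofReal (2 ^ (N + 2)) := by
      rw [ENNReal.ofReal_pow (by norm_num), ENNReal.ofReal_ofNat]
    simp only [hw]
    rw [h2, ← ENNReal.ofReal_mul (by positivity), ← ENNReal.ofReal_one]
    apply ENNReal.ofReal_le_ofReal
    unfold wt
    rw [← div_eq_mul_inv, one_le_div (by positivity)]
    exact pow_le_pow_left₀ (by positivity) (by linarith) _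
  -- one plank
  have hplank : ∀ y, ∫⁻ z, ‖TP φ x σ₁ (fun ζ => ∑ k ∈ I, G' k ζ) z‖ₑ ^ 2 * w y z ≤
      C3 * C2 * ENNReal.ofReal (CN * (max 1 (Real.sqrt R / (R₁ * s))) ^ m) *
        ENNReal.ofReal (D ^ 2) * ∑ k ∈ I', ∫⁻ z, ‖TP β (ctr τ k) τ G z‖ₑ ^ 2 * w y z := by
    intro y
    have hsumTC : TC (fun ζ => ∑ k ∈ I', G' k ζ) := TC_sum' _ _ hTCI'
    have hsumsupp : ∀ ζ, (∑ k ∈ I', G' k ζ) ≠ 0 → 1 / 4 ≤ ζ.1 ∧ ζ.1 ≤ 8 := by
      intro ζ hζ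
      obtain ⟨k, hk, hkne⟩ := Finset.exists_ne_zero_of_sum_ne_zero hζ
      exact ⟨(hsupp k (hI'I k hk) ζ hkne).1, (hsupp k (hI'I k hk) ζ hkne).2.1⟩
    have e1 : ∫⁻ z, ‖TP φ x σ₁ (fun ζ => ∑ k ∈ I, G' k ζ) z‖ₑ ^ 2 * w y z ≤
        C3 * ∫⁻ z, ‖TF (fun ζ => ∑ k ∈ I', G' k ζ) z‖ₑ ^ 2 * w y z := by
      have h1 := hC3 φ hφ η x s σ₁ ρ y (fun ζ => ∑ k ∈ I', G' k ζ) hs0 hσ₁0 hρ1
        (by rw [one_mul]; exact hsρσ₁) (by rw [one_mul]; exact hxη.trans hsρσ₁) hsumTC hsumsupp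
      refine le_trans (le_of_eq ?_) h1
      refine lintegral_congr fun z => ?_
      rw [hTPeq z]
    have e2 : ∫⁻ z, ‖TF (fun ζ => ∑ k ∈ I', G' k ζ) z‖ₑ ^ 2 * w y z ≤
        C2 * ∑ q ∈ Q, ∫⁻ z, ‖TF (H q) z‖ₑ ^ 2 * w y z := by
      have h1 := hC2 (Fin m → ℤ) Q H (fun q => ctr σ q) σ s ρ η y hσ0 hs0 hρ1
        (by
          calc s ≤ ρ * σ := hsρσ
            _ = 1 * ρ * σ := by ring
            _ ≤ D' * ρ * σ := by gcongr) ?_ hTCH ?_ ?_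
      · refine le_trans (le_of_eq ?_) h1
        refine lintegral_congr fun z => ?_
        rw [hsumH z]
      · intro q hq
        obtain ⟨k, hk, rfl⟩ := Finset.mem_image.1 hq
        have h2 := hkp k
        calc ‖ctr σ (kp k) - η‖ = ‖-(ctr τ k - ctr σ (kp k)) + (ctr τ k - x) + (x - η)‖ := by
              congr 1; abel
          _ ≤ ‖-(ctr τ k - ctr σ (kp k))‖ + ‖ctr τ k - x‖ + ‖x - η‖ := norm_add₃_le
          _ ≤ σ + 2 * D * σ₁ + s := by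
              rw [norm_neg]
              exact add_le_add (add_le_add h2.le (hI'd k hk)) hxη
          _ ≤ s + 2 * D * s + s := by
              have := hσσ₁.trans hsR
              gcongr
          _ = D' * s := by rw [hD']; ring
          _ ≤ D' * (ρ * σ) := by gcongr
          _ = D' * ρ * σ := by ring
      · intro q hq ζ hζ
        obtain ⟨k, hk, hkne⟩ := Finset.exists_ne_zero_of_sum_ne_zero hζ
        obtain ⟨hk1, hk2⟩ := Finset.mem_filter.1 hk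
        obtain ⟨h2, h3, h4⟩ := hsupp k (hI'I k hk1) ζ hkne
        refine ⟨h2, h3, ?_⟩
        have h5 := hkp k
        rw [hk2] at h5
        calc ‖ζ.1⁻¹ • ζ.2.1 - ctr σ q‖ = ‖(ζ.1⁻¹ • ζ.2.1 - ctr τ k) + (ctr τ k - ctr σ q)‖ := by
              congr 1; abel
          _ ≤ ‖ζ.1⁻¹ • ζ.2.1 - ctr τ k‖ + ‖ctr τ k - ctr σ q‖ := norm_add_le _ _
          _ ≤ D * τ + σ := add_le_add h4 h5.le
          _ ≤ D * σ + σ := by gcongr
          _ ≤ D' * σ := by rw [hD']; nlinarith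
      · intro y' J' _ hJ'
        have h2 := hcount σ (2 * D' * σ) y' J' hσ0 (by positivity) (by
          intro k hk
          rw [norm_sub_rev]
          exact hJ' k hk)
        rw [mul_div_assoc, div_self hσ0.ne', mul_one] at h2
        have h3 : (J'.card : ℝ) ≤ N₀ := h2.trans (by rw [hN₀]; exact Nat.le_ceil _)
        exact_mod_cast h3
    have e3 : ∀ q ∈ Q, ∫⁻ z, ‖TF (H q) z‖ₑ ^ 2 * w y z ≤
        ENNReal.ofReal (CN * (max 1 (Real.sqrt R / (R₁ * s))) ^ m) * (ENNReal.ofReal (D ^ 2) *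
          ∑ k ∈ I'.filter (fun k => kp k = q), ∫⁻ z, ‖TP β (ctr τ k) τ G z‖ₑ ^ 2 * w y z) := by
      intro q _
      rw [← lintegral_finsetSum _ fun k _ => hmk k y,
        ← lintegral_const_mul' _ _ ENNReal.ofReal_ne_top,
        ← lintegral_const_mul' _ _ ENNReal.ofReal_ne_top]
      refine lintegral_mono fun z => ?_
      have h1 : ‖TF (H q) z‖ₑ ^ 2 ≤
          ENNReal.ofReal (CN * (max 1 (Real.sqrt R / (R₁ * s))) ^ m) *
            ∑ k ∈ I'.filter (fun k => kp k = q), ‖TF (G' k) z‖ₑ ^ 2 := by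
        rw [hTFH q z]
        refine sq_sum_le _ (fun k z => TF (G' k) z) z _ ?_
        rw [← ENNReal.ofReal_natCast]
        exact ENNReal.ofReal_le_ofReal (hNq q)
      have h2 : ∀ k ∈ I'.filter (fun k => kp k = q), ‖TF (G' k) z‖ₑ ^ 2 ≤
          ENNReal.ofReal (D ^ 2) * ‖TP β (ctr τ k) τ G z‖ₑ ^ 2 := by
        intro k hk
        have h3 : ‖TF (G' k) z‖ₑ ≤ ENNReal.ofReal D * ‖TP β (ctr τ k) τ G z‖ₑ := by
          rw [← ofReal_norm, ← ofReal_norm, ← ENNReal.ofReal_mul (by linarith)]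
          exact ENNReal.ofReal_le_ofReal (hdom k (hI'I k (Finset.mem_filter.1 hk).1) z)
        calc ‖TF (G' k) z‖ₑ ^ 2 ≤ (ENNReal.ofReal D * ‖TP β (ctr τ k) τ G z‖ₑ) ^ 2 := by gcongr
          _ = _ := by rw [mul_pow, ENNReal.ofReal_pow (by linarith)]
      calc ‖TF (H q) z‖ₑ ^ 2 * w y z ≤
          (ENNReal.ofReal (CN * (max 1 (Real.sqrt R / (R₁ * s))) ^ m) *
            ∑ k ∈ I'.filter (fun k => kp k = q),
              (ENNReal.ofReal (D ^ 2) * ‖TP β (ctr τ k) τ G z‖ₑ ^ 2)) * w y z :=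
            mul_le_mul' (h1.trans (mul_le_mul' le_rfl (Finset.sum_le_sum h2))) le_rfl
        _ = _ := by
            rw [← Finset.mul_sum, ← Finset.sum_mul]
            ring
    calc ∫⁻ z, ‖TP φ x σ₁ (fun ζ => ∑ k ∈ I, G' k ζ) z‖ₑ ^ 2 * w y z
        ≤ C3 * (C2 * ∑ q ∈ Q, ENNReal.ofReal (CN * (max 1 (Real.sqrt R / (R₁ * s))) ^ m) *
            (ENNReal.ofReal (D ^ 2) * ∑ k ∈ I'.filter (fun k => kp k = q),
              ∫⁻ z, ‖TP β (ctr τ k) τ G z‖ₑ ^ 2 * w y z)) :=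
          e1.trans (mul_le_mul' le_rfl (e2.trans (mul_le_mul' le_rfl (Finset.sum_le_sum e3))))
      _ = _ := by
          rw [← Finset.mul_sum, ← Finset.mul_sum,
            Finset.sum_fiberwise_of_maps_to (fun k hk => Finset.mem_image_of_mem _ hk)]
          ring
  -- sum over the planks
  have hsum : ∀ k ∈ I', ∑ y ∈ J, ∫⁻ z, ‖TP β (ctr τ k) τ G z‖ₑ ^ 2 * w y z ≤
      C1 * ∫⁻ z, ‖TP β (ctr τ k) τ G z‖ₑ ^ 2 * ENNReal.ofReal (wt N (St η s r R₁ (z - z₀))) := by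
    intro k _
    rw [← lintegral_finsetSum _ fun y _ => hmk k y,
      ← lintegral_const_mul' _ _ ENNReal.coe_ne_top]
    refine lintegral_mono fun z => ?_
    rw [← Finset.mul_sum]
    calc ‖TP β (ctr τ k) τ G z‖ₑ ^ 2 * ∑ y ∈ J, w y z ≤ ‖TP β (ctr τ k) τ G z‖ₑ ^ 2 *
        (C1 * ENNReal.ofReal (wt N (St η s r R₁ (z - z₀)))) := mul_le_mul' le_rfl (hJ2 z)
      _ = _ := by ring
  calc ∫⁻ z in VX η s r R₁ z₀, ‖TP φ x σ₁ (fun ζ => ∑ k ∈ I, G' k ζ) z‖ₑ ^ 2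
      ≤ ∫⁻ z in VX η s r R₁ z₀, 2 ^ (N + 2) * ∑ y ∈ J,
          (‖TP φ x σ₁ (fun ζ => ∑ k ∈ I, G' k ζ) z‖ₑ ^ 2 * w y z) := by
        refine setLIntegral_mono' hVm fun z hz => ?_
        calc ‖TP φ x σ₁ (fun ζ => ∑ k ∈ I, G' k ζ) z‖ₑ ^ 2 =
            ‖TP φ x σ₁ (fun ζ => ∑ k ∈ I, G' k ζ) z‖ₑ ^ 2 * 1 := (mul_one _).symm
          _ ≤ ‖TP φ x σ₁ (fun ζ => ∑ k ∈ I, G' k ζ) z‖ₑ ^ 2 * (2 ^ (N + 2) * ∑ y ∈ J, w y z) :=
              mul_le_mul' le_rfl (hone z hz)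
          _ = _ := by rw [← Finset.mul_sum]; ring
    _ ≤ ∫⁻ z, 2 ^ (N + 2) * ∑ y ∈ J,
          (‖TP φ x σ₁ (fun ζ => ∑ k ∈ I, G' k ζ) z‖ₑ ^ 2 * w y z) := setLIntegral_le_lintegral _ _
    _ = 2 ^ (N + 2) * ∑ y ∈ J,
          ∫⁻ z, ‖TP φ x σ₁ (fun ζ => ∑ k ∈ I, G' k ζ) z‖ₑ ^ 2 * w y z := by
        rw [lintegral_const_mul' _ _ (by finiteness)]
        congr 1
        have hm2 : Measurable (fun z => ‖TP φ x σ₁ (fun ζ => ∑ k ∈ I, G' k ζ) z‖ₑ ^ 2) := by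
          have h1 : TC (fun ζ => cp φ x σ₁ ζ * ∑ k ∈ I, G' k ζ) := by
            refine hCPS m φ x σ₁ _ hφ.1 hσ₁0 (TC_sum' _ _ hTCG') fun ζ hζ => ?_
            obtain ⟨k, hk, hkne⟩ := Finset.exists_ne_zero_of_sum_ne_zero hζ
            exact (hsupp k hk ζ hkne).1
          have h2 : Continuous (TF (fun ζ => cp φ x σ₁ ζ * ∑ k ∈ I, G' k ζ)) := (hSCH m _ h1).1
          exact h2.measurable.enorm.pow_const 2
        exact lintegral_finsetSum _ fun y _ => hm2.mul (hwm y)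
    _ ≤ 2 ^ (N + 2) * ∑ y ∈ J, (C3 * C2 *
          ENNReal.ofReal (CN * (max 1 (Real.sqrt R / (R₁ * s))) ^ m) * ENNReal.ofReal (D ^ 2) *
            ∑ k ∈ I', ∫⁻ z, ‖TP β (ctr τ k) τ G z‖ₑ ^ 2 * w y z) :=
        mul_le_mul' le_rfl (Finset.sum_le_sum fun y _ => hplank y)
    _ = 2 ^ (N + 2) * (C3 * C2 *
          ENNReal.ofReal (CN * (max 1 (Real.sqrt R / (R₁ * s))) ^ m) * ENNReal.ofReal (D ^ 2) *
            ∑ k ∈ I', ∑ y ∈ J, ∫⁻ z, ‖TP β (ctr τ k) τ G z‖ₑ ^ 2 * w y z) := by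
        rw [← Finset.mul_sum, Finset.sum_comm]
    _ ≤ 2 ^ (N + 2) * (C3 * C2 *
          ENNReal.ofReal (CN * (max 1 (Real.sqrt R / (R₁ * s))) ^ m) * ENNReal.ofReal (D ^ 2) *
            ∑ k ∈ I', (C1 * ∫⁻ z, ‖TP β (ctr τ k) τ G z‖ₑ ^ 2 *
              ENNReal.ofReal (wt N (St η s r R₁ (z - z₀))))) :=
        mul_le_mul' le_rfl (mul_le_mul' le_rfl (Finset.sum_le_sum hsum))
    _ = _ := by
        rw [← Finset.mul_sum]
        have h1 : ((Real.toNNReal CN : ℝ≥0) : ℝ≥0∞) = ENNReal.ofReal CN := rfl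
        have h2 : ((Real.toNNReal (D ^ 2) : ℝ≥0) : ℝ≥0∞) = ENNReal.ofReal (D ^ 2) := rfl
        rw [ENNReal.ofReal_mul hCN0.le, ENNReal.coe_mul, ENNReal.coe_mul, ENNReal.coe_mul,
          ENNReal.coe_mul, ENNReal.coe_mul, h1, h2, ENNReal.coe_pow]
        push_cast
        ring

end Pool.Agent.H83.FD
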